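import Pool.Agent.Helper32.BT.Wit
set_option autoImplicit false

namespace Pool.Agent.Results.MP_9385b8_an.BaireTrees

open Pool.Agent.Helper55.NK Pool.Agent.Helper32.BT

/-- Every Baire tree `T` gives a Banach space of density `#T` with 2-separated sequences of unit vectors in all
its renormings. -/
theorem result (T : Type) [PartialOrder T] (hT : BaireTree T) : Witness (Cardinal.mk T) :=
  witness_of_tree T hT

end Pool.Agent.Results.MP_9385b8_an.BaireTrees
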