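import Pool.Agent.Helper76.TwoSepDefs2
import Pool.Agent.Helper76.TwoSepK
set_option autoImplicit false
open scoped ZeroAtInfty

namespace Pool.Agent.Results.MP_9385b8_an.ChainLowerSets

open Pool.Agent.TwoSep

/-- Spaces of functions spanned by chains which are lower sets. -/
theorem result.{u, v} :
    (∀ (T : Type u) [PartialOrder T], TreeLike T →
      ∀ (X : Type v) [NormedAddCommGroup X] [NormedSpace ℝ X], Embeds X T → NoThree X) ∧
    (∀ (T : Type u) [PartialOrder T] [TopologicalSpace T] [T2Space T], TreeLike T →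
      (∀ t : T, IsCompact (Set.Iic t) ∧ IsOpen (Set.Iic t)) → NoThree C₀(T, ℝ)) ∧
    (∀ (K : Type u) [LinearOrder K] [TopologicalSpace K] [OrderTopology K] [CompactSpace K],
      NoThree C(K, ℝ)) :=
  chainLowerSets.{u, v}

end Pool.Agent.Results.MP_9385b8_an.ChainLowerSets
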