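import Pool.Agent.Helper55.NK.Final
set_option autoImplicit false

namespace Pool.Agent.Results.MP_9385b8_an.NonmeagreSets

open Pool.Agent.Helper55.NK

/-- If a nonmeagre set of reals has cardinality at most `#K`, where `#K` is `ℵ₁, ℵ₂, …` or `K` is uncountable with a
cofinal family of `#K` countable subsets, then some Banach space of density `#K` has 2-separated sequences of
unit vectors in all its renormings. -/
theorem result (K : Type)
    (hK : (∃ n : ℕ, Cardinal.mk K = Cardinal.aleph (n + 1)) ∨
      (Cardinal.aleph 1 ≤ Cardinal.mk K ∧ ∃ C : K → Set K, (∀ i, (C i).Countable) ∧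
        ∀ A : Set K, A.Countable → ∃ i, A ⊆ C i))
    (S : Set ℝ) (hS : ¬ IsMeagre S) (hc : Cardinal.mk S ≤ Cardinal.mk K) : Witness (Cardinal.mk K) :=
  final K hK S hS hc

end Pool.Agent.Results.MP_9385b8_an.NonmeagreSets
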