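import Pool.Agent.Helper55.TR.Transfer2
set_option autoImplicit false

namespace Pool.Agent.Results.MP_9385b8_an.OperatorFamilies

open Pool.Agent.Helper55.TR

/-- Transfer theorem: `NoFam N K` and a uniformly bounded family of seminorms `p i` on `X`, none of which has
an `N`-indexed family of unit vectors at pairwise distances at least 2, give `NoFam N X`, if outside `K` the
largest values of the `p j x` over one of countably many index sets `J n` are isolated. -/
theorem result.{u, v, w} (N : Type u) (X : Type v) [NormedAddCommGroup X] [NormedSpace ℝ X]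
    (I : Type w) (p : I → Seminorm ℝ X) (C : ℝ) (hC : ∀ i x, p i x ≤ C * ‖x‖)
    (hp : ∀ i, ¬ ∃ f : N → X, (∀ n, p i (f n) = 1) ∧ ∀ n m, n ≠ m → 2 ≤ p i (f n - f m))
    (J : ℕ → Set I) (K : Submodule ℝ X)
    (hJ : ∀ x, x ∉ K → ∃ (n : ℕ) (η : ℝ), 0 ≤ η ∧ {j ∈ J n | η < p j x}.Finite ∧
      {j ∈ J n | η < p j x}.Nonempty)
    (hNK : NoFam N K) : NoFam N X :=
  transfer2 p C hC hp J K hJ hNK

end Pool.Agent.Results.MP_9385b8_an.OperatorFamilies
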